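import Pool.Agent.T9h5.GG.Spec2
import Pool.Agent.T9h5.GG.Lem
import Pool.Agent.T9h42.GF.C6

/-!
# The core estimate for `Ar A Z`: the second moment over `c`

Port of `Pool/Agent/T9h42/GF/C3.lean` (and of the basic facts of `C1`, `C2`) from `k[X]` to the
structure `Ar A Z`.
-/

set_option autoImplicit false

namespace Pool.Agent.T9h84.GG

open Finset
open Pool.Agent.T9h5.GG
open Pool.Agent.T9h42.GF (ncard_sep)

section basic

variable {A Z : Type} [CommRing A] [IsDomain A] (S : Ar A Z)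

omit [IsDomain A] in
theorem q_posR : (0 : ℝ) < S.q := by exact_mod_cast S.q_pos

/-- the size of `Cop`. -/
theorem cop_card (hC : BoxCop) (M : A) (hM : M ≠ 0) : ∃ φ : ℕ, 0 < φ ∧
    ∀ D : ℕ, S.δ * S.ht M + S.c₀ ≤ S.δ * D →
      (S.Cop M D).card * S.q ^ (S.δ * S.ht M + S.c) = φ * S.q ^ (S.δ * D) := by
  classical
  obtain ⟨φ, h1, h2⟩ := hC A Z S M hM
  refine ⟨φ, h1, fun D hD => ?_⟩
  obtain ⟨g, hg, hgD⟩ := S.mon_ex D (by omega)
  rw [← h2 g 0 D hD, ncard_sep]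
  congr 2
  ext x
  rw [S.mem_Cop, mem_filter, S.mem_Box, ← S.mon_iff hg hgD x, sub_zero, and_assoc]

theorem cop_pos (hC : BoxCop) (M : A) (hM : M ≠ 0) (D : ℕ)
    (hD : S.δ * S.ht M + S.c₀ ≤ S.δ * D) : 0 < (S.Cop M D).card := by
  obtain ⟨φ, h1, h2⟩ := cop_card S hC M hM
  have h3 := h2 D hD
  have h4 : 0 < φ * S.q ^ (S.δ * D) := Nat.mul_pos h1 (pow_pos S.q_pos _)
  rw [← h3] at h4
  exact Nat.pos_of_mul_pos_right h4

theorem cop_ratio (hC : BoxCop) (M : A) (hM : M ≠ 0) (D E : ℕ)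
    (hD : S.δ * S.ht M + S.c₀ ≤ S.δ * D) (hE : D ≤ E) :
    ((S.Cop M E).card : ℝ) = (S.Cop M D).card * (S.q : ℝ) ^ (S.δ * (E - D)) := by
  obtain ⟨φ, h1, h2⟩ := cop_card S hC M hM
  have hE' : S.δ * D ≤ S.δ * E := Nat.mul_le_mul_left _ hE
  have h3 := h2 D hD
  have h4 := h2 E (hD.trans hE')
  have h5 : (S.Cop M E).card * S.q ^ (S.δ * S.ht M + S.c) =
      ((S.Cop M D).card * S.q ^ (S.δ * (E - D))) * S.q ^ (S.δ * S.ht M + S.c) := by
    rw [h4, mul_right_comm, h3, mul_assoc, ← pow_add, ← Nat.mul_add]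
    congr 3
    omega
  have h6 := Nat.eq_of_mul_eq_mul_right (pow_pos S.q_pos _) h5
  rw [h6]
  push_cast
  rfl

theorem mul_mem_cop {M x y : A} {D E : ℕ} (hx : x ∈ S.Cop M D) (hy : y ∈ S.Cop M E) :
    x * y ∈ S.Cop M (D + E) := by
  rw [S.mem_Cop] at hx hy ⊢
  exact ⟨S.mon_mul _ _ hx.1 hy.1, by
    rw [S.ht_mul (S.mon_ne _ hx.1) (S.mon_ne _ hy.1), hx.2.1, hy.2.1],
    IsCoprime.mul_left hx.2.2 hy.2.2⟩

/-- products of elements of sign `1`. -/
theorem prod_mem_cop {M : A} {D n : ℕ} {v : Fin n → A}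
    (hv : ∀ i, v i ∈ S.Cop M D) : (∏ i, v i) ∈ S.Cop M (n * D) := by
  rw [S.mem_Cop]
  have h1 : ∀ i, S.mon (v i) := fun i => (S.mem_Cop.1 (hv i)).1
  refine ⟨S.mon_prod _ _ fun i _ => h1 i, ?_, ?_⟩
  · rw [S.ht_prod _ _ fun i _ => S.mon_ne _ (h1 i)]
    rw [sum_congr rfl fun i _ => (S.mem_Cop.1 (hv i)).2.1]
    simp
  · exact IsCoprime.prod_left fun i _ => (S.mem_Cop.1 (hv i)).2.2

open Classical in
theorem sum_aw {M : Type} [AddCommMonoid M] [Module ℝ M] (α β : A) (E d n : ℕ)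
    (α₁ c : A) (g : A → M) :
    ∑ f ∈ S.Cop (α * β) (n * d), aw S α β E d n α₁ c f • g f =
      ∑ v ∈ Fintype.piFinset (fun _ : Fin n => S.Cop (α * β) d),
        if Ph S α β E α₁ c (∏ i, v i) then g (∏ i, v i) else 0 := by
  unfold aw
  simp_rw [sum_smul]
  rw [sum_comm]
  refine sum_congr rfl fun v hv => ?_
  rw [Fintype.mem_piFinset] at hv
  rw [sum_eq_single (∏ i, v i)]
  · simp
  · intro f _ hf
    rw [if_neg (fun h => hf h.1.symm), zero_smul]
  · intro h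
    exact absurd (prod_mem_cop S hv) h

omit [IsDomain A] in
theorem aw_nonneg (α β : A) (E d n : ℕ) (α₁ c f : A) : 0 ≤ aw S α β E d n α₁ c f := by
  unfold aw
  refine sum_nonneg fun v _ => ?_
  split_ifs
  · exact zero_le_one
  · exact le_refl _

/-- `x + y` has sign `1` and the same height as `x` if `y = 0` or `ht y < ht x`. -/
theorem mon_add' {x y : A} {D : ℕ} (hx : S.mon x) (hD : S.ht x = D)
    (hy : y = 0 ∨ S.ht y < D) : S.mon (x + y) ∧ S.ht (x + y) = D := by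
  rcases hy with rfl | hy
  · rw [add_zero]
    exact ⟨hx, hD⟩
  · by_cases h0 : y = 0
    · rw [h0, add_zero]
      exact ⟨hx, hD⟩
    · rw [← hD] at hy ⊢
      exact ⟨S.mon_add _ _ hx h0 hy, (S.ht_add_lt (S.mon_ne _ hx) h0 hy).2⟩

theorem mul_small {x u : A} {D R E : ℕ} (hx : x ≠ 0) (hD : S.ht x = D) (hE : D + R ≤ E)
    (hu : u = 0 ∨ S.ht u < R) : x * u = 0 ∨ S.ht (x * u) < E := by
  rcases hu with rfl | hu
  · left
    rw [mul_zero]
  · by_cases h0 : u = 0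
    · left
      rw [h0, mul_zero]
    · right
      rw [S.ht_mul hx h0]
      omega

end basic

section c3

variable {A Z : Type} [CommRing A] [IsDomain A] (S : Ar A Z)

/-- `α a + β b` is prime to `αβ`. -/
theorem add_mem_cop {α β : A} (hβ : S.mon β)
    (hαβ : IsCoprime α β) {α₁ a b : A} (hα₁ : S.mon α₁) (hcop : IsCoprime α₁ β)
    (hdvd : α ∣ α₁) {L Da Db : ℕ} (ha : a ∈ S.Cop (α * β) Da) (hb : b ∈ S.Cop (α * β) Db)
    (hL : S.ht α₁ + Da = L) (hE : S.ht β + Db < L) :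
    α₁ * a + β * b ∈ S.Cop (α * β) L := by
  rw [S.mem_Cop] at ha hb ⊢
  obtain ⟨ha1, ha2, ha3⟩ := ha
  obtain ⟨hb1, hb2, hb3⟩ := hb
  have h1 : S.mon (α₁ * a) := S.mon_mul _ _ hα₁ ha1
  have h2 : S.ht (α₁ * a) = L := by rw [S.ht_mul (S.mon_ne _ hα₁) (S.mon_ne _ ha1), ha2, hL]
  have h3 : S.ht (β * b) = S.ht β + Db := by
    rw [S.ht_mul (S.mon_ne _ hβ) (S.mon_ne _ hb1), hb2]
  have h4 := mon_add' S h1 h2 (Or.inr (h3.trans_lt hE))
  refine ⟨h4.1, h4.2, ?_⟩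
  refine IsCoprime.mul_right ?_ ?_
  · -- modulo `α`
    obtain ⟨α', rfl⟩ := hdvd
    have h5 : IsCoprime (β * b) α :=
      IsCoprime.mul_left hαβ.symm (hb3.of_isCoprime_of_dvd_right (dvd_mul_right α β))
    have h6 := h5.add_mul_left_left (α' * a)
    have h7 : α * α' * a + β * b = β * b + α * (α' * a) := by ring
    rw [h7]
    exact h6
  · have h5 : IsCoprime (α₁ * a) β :=
      IsCoprime.mul_left hcop (ha3.of_isCoprime_of_dvd_right (dvd_mul_left β α))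
    have h6 := h5.add_mul_left_left b
    exact h6

/-- `Ph` is invariant under `c ↦ c + αβ² u`. -/
theorem ph_add {α β : A} (hα : S.mon α) (hβ : S.mon β) {E : ℕ}
    {α₁ c f u : A} (hE : S.ht (α * β) ≤ E)
    (hu : u = 0 ∨ S.ht u < E - S.ht (α * β)) (h : Ph S α β E α₁ c f) :
    Ph S α β E α₁ (c + α * β * β * u) f := by
  obtain ⟨z, hz, hc⟩ := h
  refine ⟨z + α * β * u, ?_, by rw [hc]; ring⟩
  rw [S.mem_Cop] at hz ⊢
  obtain ⟨h1, h2, h3⟩ := hz
  have h4 := mon_add' S h1 h2 (mul_small S (S.mon_ne _ (S.mon_mul _ _ hα hβ)) rfl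
    (by omega) hu)
  exact ⟨h4.1, h4.2, h3.add_mul_left_left u⟩

theorem cop_add {α β : A} (hα : S.mon α) (hβ : S.mon β) {E L : ℕ}
    {c u : A} (hE : S.ht (α * β) ≤ E) (hEL : S.ht β + E ≤ L)
    (hu : u = 0 ∨ S.ht u < E - S.ht (α * β)) (h : c ∈ S.Cop (α * β) L) :
    c + α * β * β * u ∈ S.Cop (α * β) L := by
  rw [S.mem_Cop] at h ⊢
  obtain ⟨h1, h2, h3⟩ := h
  have h6 : S.ht (α * β * β) = S.ht (α * β) + S.ht β :=
    S.ht_mul (S.mon_ne _ (S.mon_mul _ _ hα hβ)) (S.mon_ne _ hβ)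
  have h4 := mon_add' S h1 h2 (mul_small S
    (S.mon_ne _ (S.mon_mul _ _ (S.mon_mul _ _ hα hβ) hβ)) h6 (by omega) hu)
  refine ⟨h4.1, h4.2, ?_⟩
  have h7 : c + α * β * β * u = c + α * β * (β * u) := by ring
  rw [h7]
  exact h3.add_mul_left_left _

open Classical in
/-- equidistribution of `c` modulo `b`. -/
theorem equi_c (hB : BoxMem) (hBC : BoxCount) {α β : A} (hα : S.mon α) (hβ : S.mon β)
    {E L : ℕ} (hE : S.ht (α * β) ≤ E) (hEL : S.ht β + E ≤ L) {b : A}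
    (hb : S.mon b) (hbM : IsCoprime b (α * β))
    (hbE : S.δ * S.ht b + S.c₀ ≤ S.δ * (E - S.ht (α * β)))
    (Ψ : A → Prop)
    (hΨ : ∀ c u : A, (u = 0 ∨ S.ht u < E - S.ht (α * β)) → Ψ c → Ψ (c + α * β * β * u)) (ρ : A) :
    (((S.Cop (α * β) L).filter (fun c => Ψ c ∧ b ∣ c - ρ)).card : ℝ) *
      (S.q : ℝ) ^ (S.δ * S.ht b) = ((S.Cop (α * β) L).filter Ψ).card := by
  set R := E - S.ht (α * β) with hR
  set q : ℝ := (S.q : ℝ) with hq
  have hq0 : 0 < q := q_posR S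
  set U : Finset A := S.Box (0 : A) R with hU
  have hUm : ∀ u, u ∈ U ↔ (u = 0 ∨ S.ht u < R) := by
    intro u
    rw [hU, S.mem_Box, sub_zero]
  have hUcardN : U.card * S.q ^ S.c = S.q ^ (S.δ * R) := (hB A Z S).2.2.2.1 0 R (by omega)
  have hUcard : (U.card : ℝ) * q ^ S.c = q ^ (S.δ * R) := by
    rw [hq]
    exact_mod_cast hUcardN
  have hU0 : (0 : ℝ) < U.card := by
    have : (0 : ℝ) < (U.card : ℝ) * q ^ S.c := by rw [hUcard]; positivity
    exact pos_of_mul_pos_left this (by positivity)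
  have hneg : ∀ u : A, (u = 0 ∨ S.ht u < R) → (-u = 0 ∨ S.ht (-u) < R) := by
    intro u hu
    rwa [neg_eq_zero, S.ht_neg]
  -- translations
  have htr : ∀ u ∈ U, ∀ F : A → ℝ, ∑ c ∈ S.Cop (α * β) L, F (c + α * β * β * u) =
      ∑ c ∈ S.Cop (α * β) L, F c := by
    intro u hu F
    rw [hUm] at hu
    refine sum_nbij' (fun c => c + α * β * β * u) (fun c => c - α * β * β * u) ?_ ?_ ?_ ?_ ?_
    · intro c hc
      exact cop_add S hα hβ hE hEL hu hc
    · intro c hc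
      have := cop_add S hα hβ hE hEL (u := -u) (hneg u hu) hc
      have h2 : c - α * β * β * u = c + α * β * β * (-u) := by ring
      rw [h2]
      exact this
    · intro c _
      ring
    · intro c _
      ring
    · intro c _
      rfl
  have hΨ' : ∀ c, ∀ u ∈ U, (Ψ (c + α * β * β * u) ↔ Ψ c) := by
    intro c u hu
    rw [hUm] at hu
    constructor
    · intro h
      have := hΨ _ (-u) (hneg u hu) h
      have h2 : c + α * β * β * u + α * β * β * (-u) = c := by ring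
      rwa [h2] at this
    · exact hΨ c u hu
  -- inverse of `αβ²` modulo `b`
  have hinv : IsCoprime (α * β * β) b := by
    refine IsCoprime.mul_left hbM.symm ?_
    exact (hbM.of_isCoprime_of_dvd_right (dvd_mul_left β α)).symm
  obtain ⟨s, t, hst⟩ := hinv
  have hb0 : b ≠ 0 := S.mon_ne _ hb
  have hcount : ∀ c, ((U.filter (fun u => b ∣ c + α * β * β * u - ρ)).card : ℝ) *
      q ^ (S.δ * S.ht b) = U.card := by
    intro c
    have h1 := hBC A Z S (S.dv b) (s * (ρ - c)) 0 R (by rw [S.dE_dv' hb0]; exact hbE)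
    rw [ncard_sep, S.dE_dv' hb0] at h1
    have h2 : U.filter (fun u => b ∣ c + α * β * β * u - ρ) =
        (S.Box (0 : A) R).filter (fun u => S.In (S.dv b) (u - s * (ρ - c))) := by
      rw [hU]
      refine filter_congr fun u _ => ?_
      rw [← S.dvd_iff_In hb0]
      constructor
      · intro h
        -- `u - s (ρ - c) = s (c + αβ²u - ρ) + t b u`
        have h3 : u - s * (ρ - c) = s * (c + α * β * β * u - ρ) + b * (t * u) := by
          linear_combination (-u) * hst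
        rw [h3]
        exact dvd_add (h.mul_left _) (dvd_mul_right _ _)
      · intro h
        have h3 : c + α * β * β * u - ρ = α * β * β * (u - s * (ρ - c)) +
            b * (t * (c - ρ)) := by
          linear_combination (c - ρ) * (-1) * hst
        rw [h3]
        exact dvd_add (h.mul_left _) (dvd_mul_right _ _)
    rw [h2]
    have h4 : ((((S.Box (0 : A) R).filter
        (fun u => S.In (S.dv b) (u - s * (ρ - c)))).card : ℕ) : ℝ) *
        q ^ (S.δ * S.ht b + S.c) = q ^ (S.δ * R) := by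
      rw [hq]
      exact_mod_cast h1
    have h5 : (0 : ℝ) < q ^ S.c := by positivity
    apply mul_right_cancel₀ h5.ne'
    rw [hUcard, ← h4, pow_add, mul_assoc]
  -- average over `U`
  have h1 : (U.card : ℝ) * (((S.Cop (α * β) L).filter (fun c => Ψ c ∧ b ∣ c - ρ)).card : ℝ) =
      ∑ c ∈ S.Cop (α * β) L, (if Ψ c then
        ((U.filter (fun u => b ∣ c + α * β * β * u - ρ)).card : ℝ) else 0) := by
    rw [← nsmul_eq_mul, ← sum_const]
    have h2 : ∀ u ∈ U, (((S.Cop (α * β) L).filter (fun c => Ψ c ∧ b ∣ c - ρ)).card : ℝ) =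
        ∑ c ∈ S.Cop (α * β) L, if Ψ c ∧ b ∣ c + α * β * β * u - ρ then (1 : ℝ) else 0 := by
      intro u hu
      rw [← sum_boole, ← htr u hu]
      refine sum_congr rfl fun c _ => ?_
      rw [hΨ' c u hu]
    rw [sum_congr rfl h2, sum_comm]
    refine sum_congr rfl fun c _ => ?_
    by_cases hc : Ψ c
    · simp [hc, sum_boole]
    · simp [hc]
  have h3 : (U.card : ℝ) * ((((S.Cop (α * β) L).filter (fun c => Ψ c ∧ b ∣ c - ρ)).card : ℝ) *
      q ^ (S.δ * S.ht b)) = (U.card : ℝ) * ((S.Cop (α * β) L).filter Ψ).card := by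
    rw [← mul_assoc, h1, sum_mul]
    rw [← sum_boole, mul_sum]
    refine sum_congr rfl fun c _ => ?_
    by_cases hc : Ψ c
    · rw [if_pos hc, if_pos hc, hcount, mul_one]
    · rw [if_neg hc, if_neg hc, zero_mul, mul_zero]
  exact mul_left_cancel₀ hU0.ne' h3

open Classical in
/-- number of solutions. -/
noncomputable def cn (X Y : Finset A) (n : ℕ) (β α₁ b₁ c : A) : ℕ :=
  (((Fintype.piFinset (fun _ : Fin n => X)) ×ˢ Y).filter
    (fun v => α₁ * ∏ i, v.1 i + β * (b₁ * v.2) = c)).card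

omit [IsDomain A] in
theorem wn_eq (C X Y : Finset A) (n : ℕ) (β α₁ b₁ c : A) :
    wn C X Y n β α₁ b₁ c = (C.card : ℝ) * cn X Y n β α₁ b₁ c / ((X.card : ℝ) ^ n * Y.card) := rfl

/-- total number of solutions. -/
theorem sum_cn {α β : A} (hβ : S.mon β) (hαβ : IsCoprime α β)
    {α₁ b₁ : A} (hα₁ : S.mon α₁) (hcop : IsCoprime α₁ β) (hdvd : α ∣ α₁) {L d e n Db : ℕ}
    (hb₁ : b₁ ∈ S.Cop (α * β) Db) (hL : S.ht α₁ + n * d = L)
    (hE : S.ht β + (Db + e) < L) :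
    ∑ c ∈ S.Cop (α * β) L, (cn (S.Cop (α * β) d) (S.Cop (α * β) e) n β α₁ b₁ c : ℝ) =
      ((S.Cop (α * β) d).card : ℝ) ^ n * (S.Cop (α * β) e).card := by
  classical
  have h1 : ∀ c, (cn (S.Cop (α * β) d) (S.Cop (α * β) e) n β α₁ b₁ c : ℝ) =
      ∑ v ∈ (Fintype.piFinset (fun _ : Fin n => S.Cop (α * β) d)) ×ˢ S.Cop (α * β) e,
        if α₁ * ∏ i, v.1 i + β * (b₁ * v.2) = c then (1 : ℝ) else 0 := by
    intro c
    rw [sum_boole, cn]
  simp_rw [h1]
  rw [sum_comm]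
  have h2 : ∀ v ∈ (Fintype.piFinset (fun _ : Fin n => S.Cop (α * β) d)) ×ˢ S.Cop (α * β) e,
      ∑ c ∈ S.Cop (α * β) L,
        (if α₁ * ∏ i, v.1 i + β * (b₁ * v.2) = c then (1 : ℝ) else 0) = 1 := by
    intro v hv
    rw [mem_product, Fintype.mem_piFinset] at hv
    rw [sum_ite_eq, if_pos]
    have h3 : b₁ * v.2 ∈ S.Cop (α * β) (Db + e) := mul_mem_cop S hb₁ hv.2
    exact add_mem_cop S hβ hαβ hα₁ hcop hdvd (prod_mem_cop S hv.1) h3 hL hE
  rw [sum_congr rfl h2, sum_const, nsmul_eq_mul, mul_one, card_product,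
    Fintype.card_piFinset_const]
  push_cast
  ring

open Classical in
/-- the number of solutions for given `c`. -/
theorem cn_eq {α β : A} (hβ : S.mon β)
    {α₁ b₁ : A} {d e n Db : ℕ}
    (hb₁ : b₁ ∈ S.Cop (α * β) Db) (c : A) :
    (cn (S.Cop (α * β) d) (S.Cop (α * β) e) n β α₁ b₁ c : ℝ) =
      ∑ v ∈ Fintype.piFinset (fun _ : Fin n => S.Cop (α * β) d),
        if Ph S α β (Db + e) α₁ c (∏ i, v i) ∧ b₁ ∣ c - α₁ * ∏ i, v i then (1 : ℝ) else 0 := by
  rw [sum_boole]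
  congr 1
  have hb₁' := hb₁
  rw [S.mem_Cop] at hb₁
  obtain ⟨hb1, hb2, hb3⟩ := hb₁
  have hb0 : b₁ ≠ 0 := S.mon_ne _ hb1
  unfold cn
  refine card_bij (fun v _ => v.1) ?_ ?_ ?_
  · intro v hv
    rw [mem_filter, mem_product] at hv
    obtain ⟨⟨h1, h2⟩, h3⟩ := hv
    rw [mem_filter]
    refine ⟨h1, ⟨b₁ * v.2, mul_mem_cop S hb₁' h2, h3.symm⟩, ?_⟩
    rw [← h3]
    exact ⟨β * v.2, by ring⟩
  · intro v hv v' hv' h
    rw [mem_filter] at hv hv'
    have h1 := hv.2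
    have h2 := hv'.2
    rw [← h2, h] at h1
    have h3 : β * (b₁ * v.2) = β * (b₁ * v'.2) := add_left_cancel h1
    have h4 := mul_left_cancel₀ hb0 (mul_left_cancel₀ (S.mon_ne _ hβ) h3)
    exact Prod.ext h h4
  · intro v hv
    rw [mem_filter] at hv
    obtain ⟨h1, ⟨z, hz, h2⟩, h3⟩ := hv
    have h4 : b₁ ∣ β * z := by
      rw [h2] at h3
      have : α₁ * ∏ i, v i + β * z - α₁ * ∏ i, v i = β * z := by ring
      rwa [this] at h3
    have h5 : b₁ ∣ z := (hb3.of_isCoprime_of_dvd_right (dvd_mul_left β α)).dvd_of_dvd_mul_left h4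
    obtain ⟨y, rfl⟩ := h5
    refine ⟨(v, y), ?_, rfl⟩
    rw [mem_filter, mem_product]
    refine ⟨⟨h1, ?_⟩, h2.symm⟩
    rw [S.mem_Cop] at hz ⊢
    obtain ⟨hz1, hz2, hz3⟩ := hz
    have hy : S.mon y := S.mon_cancel _ _ hb1 hz1
    refine ⟨hy, ?_, hz3.of_mul_left_right⟩
    rw [S.ht_mul hb0 (S.mon_ne _ hy), hb2] at hz2
    change S.ht y = e
    omega

open Classical in
/-- the second moment. -/
theorem sum_cn_sq (hB : BoxMem) (hBC : BoxCount) {α β : A} (hα : S.mon α) (hβ : S.mon β)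
    {α₁ b₁ : A} (hcop₁ : IsCoprime α₁ b₁) {L d e n Db : ℕ}
    (hb₁ : b₁ ∈ S.Cop (α * β) Db)
    (hE : S.ht β + (Db + e) ≤ L) (he : S.δ * S.ht (α * β) + S.c₀ ≤ S.δ * e) :
    (∑ c ∈ S.Cop (α * β) L,
        (cn (S.Cop (α * β) d) (S.Cop (α * β) e) n β α₁ b₁ c : ℝ) ^ 2) *
        (S.q : ℝ) ^ (S.δ * Db) ≤
      ∑ c ∈ S.Cop (α * β) L, ∑ f ∈ S.Cop (α * β) (n * d), ∑ f' ∈ S.Cop (α * β) (n * d),
        if b₁ ∣ f - f' then aw S α β (Db + e) d n α₁ c f * aw S α β (Db + e) d n α₁ c f'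
          else 0 := by
  set P := Fintype.piFinset (fun _ : Fin n => S.Cop (α * β) d) with hP
  have hb := S.mem_Cop.1 hb₁
  have he' : S.ht (α * β) ≤ e := by
    have h0 : S.δ * S.ht (α * β) ≤ S.δ * e := by omega
    exact Nat.le_of_mul_le_mul_left h0 S.δ_pos
  -- the right-hand side
  have hR : ∀ c, ∑ f ∈ S.Cop (α * β) (n * d), ∑ f' ∈ S.Cop (α * β) (n * d),
        (if b₁ ∣ f - f' then aw S α β (Db + e) d n α₁ c f * aw S α β (Db + e) d n α₁ c f'
          else 0) =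
      ∑ v ∈ P, ∑ v' ∈ P, if b₁ ∣ ∏ i, v i - ∏ i, v' i ∧ Ph S α β (Db + e) α₁ c (∏ i, v i) ∧
        Ph S α β (Db + e) α₁ c (∏ i, v' i) then (1 : ℝ) else 0 := by
    intro c
    have h1 : ∀ f, ∑ f' ∈ S.Cop (α * β) (n * d),
        (if b₁ ∣ f - f' then aw S α β (Db + e) d n α₁ c f * aw S α β (Db + e) d n α₁ c f'
          else 0) =
        aw S α β (Db + e) d n α₁ c f • ∑ v' ∈ P, if Ph S α β (Db + e) α₁ c (∏ i, v' i) then
          (if b₁ ∣ f - ∏ i, v' i then (1 : ℝ) else 0) else 0 := by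
      intro f
      rw [hP, ← sum_aw S α β (Db + e) d n α₁ c (fun f' => if b₁ ∣ f - f' then (1 : ℝ) else 0),
        smul_eq_mul, mul_sum]
      refine sum_congr rfl fun f' _ => ?_
      by_cases h : b₁ ∣ f - f'
      · simp [h]
      · simp [h]
    simp_rw [h1]
    rw [sum_aw S α β (Db + e) d n α₁ c]
    refine sum_congr rfl fun v _ => ?_
    by_cases hv : Ph S α β (Db + e) α₁ c (∏ i, v i)
    · rw [if_pos hv]
      refine sum_congr rfl fun v' _ => ?_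
      by_cases h1 : b₁ ∣ ∏ i, v i - ∏ i, v' i
      · by_cases h2 : Ph S α β (Db + e) α₁ c (∏ i, v' i)
        · simp [h1, h2, hv]
        · simp [h2]
      · simp [h1]
    · rw [if_neg hv]
      simp [hv]
  simp_rw [hR]
  -- the left-hand side
  have hLL : ∀ c, (cn (S.Cop (α * β) d) (S.Cop (α * β) e) n β α₁ b₁ c : ℝ) ^ 2 =
      ∑ v ∈ P, ∑ v' ∈ P, (if (Ph S α β (Db + e) α₁ c (∏ i, v i) ∧ b₁ ∣ c - α₁ * ∏ i, v i) ∧
        (Ph S α β (Db + e) α₁ c (∏ i, v' i) ∧ b₁ ∣ c - α₁ * ∏ i, v' i) then (1 : ℝ)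
          else 0) := by
    intro c
    rw [cn_eq S hβ hb₁, sq, sum_mul_sum]
    refine sum_congr rfl fun v _ => sum_congr rfl fun v' _ => ?_
    by_cases h1 : (Ph S α β (Db + e) α₁ c (∏ i, v i) ∧ b₁ ∣ c - α₁ * ∏ i, v i)
    · by_cases h2 : (Ph S α β (Db + e) α₁ c (∏ i, v' i) ∧ b₁ ∣ c - α₁ * ∏ i, v' i)
      · simp [h1, h2]
      · simp [h1, h2]
    · simp [h1]
  simp_rw [hLL]
  rw [sum_comm, sum_mul, sum_comm (s := S.Cop (α * β) L)]
  refine sum_le_sum fun v hv => ?_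
  rw [sum_comm, sum_mul, sum_comm (s := S.Cop (α * β) L)]
  refine sum_le_sum fun v' hv' => ?_
  rw [sum_boole, sum_boole]
  by_cases hdv : b₁ ∣ ∏ i, v i - ∏ i, v' i
  · have hbE : S.δ * S.ht b₁ + S.c₀ ≤ S.δ * (Db + e - S.ht (α * β)) := by
      have h0 : Db + e - S.ht (α * β) = Db + (e - S.ht (α * β)) := by omega
      rw [hb.2.1, h0, Nat.mul_add, Nat.mul_sub]
      omega
    have h1 := equi_c S hB hBC hα hβ (E := Db + e) (L := L) (by omega) hE hb.1 hb.2.2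
      hbE
      (fun c => Ph S α β (Db + e) α₁ c (∏ i, v i) ∧ Ph S α β (Db + e) α₁ c (∏ i, v' i))
      (fun c u hu h => ⟨ph_add S hα hβ (by omega) hu h.1, ph_add S hα hβ (by omega) hu h.2⟩)
      (α₁ * ∏ i, v i)
    rw [hb.2.1] at h1
    refine (mul_le_mul_of_nonneg_right ?_ (by positivity)).trans (h1.le.trans (le_of_eq ?_))
    swap
    · congr 2
      ext c
      simp only [mem_filter]
      constructor
      · rintro ⟨h2, h3⟩
        exact ⟨h2, hdv, h3⟩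
      · rintro ⟨h2, _, h3⟩
        exact ⟨h2, h3⟩
    rw [Nat.cast_le]
    refine card_le_card fun c hc => ?_
    simp only [mem_filter] at hc ⊢
    exact ⟨hc.1, ⟨hc.2.1.1, hc.2.2.1⟩, hc.2.1.2⟩
  · have h3 : ((S.Cop (α * β) L).filter (fun c => (Ph S α β (Db + e) α₁ c (∏ i, v i) ∧
        b₁ ∣ c - α₁ * ∏ i, v i) ∧ (Ph S α β (Db + e) α₁ c (∏ i, v' i) ∧
          b₁ ∣ c - α₁ * ∏ i, v' i))) = ∅ := by
      rw [filter_eq_empty_iff]
      intro c _ h
      apply hdv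
      have h4 : b₁ ∣ α₁ * (∏ i, v i - ∏ i, v' i) := by
        have h5 := dvd_sub h.2.2 h.1.2
        have h6 : c - α₁ * ∏ i, v' i - (c - α₁ * ∏ i, v i) =
            α₁ * (∏ i, v i - ∏ i, v' i) := by ring
        rwa [h6] at h5
      exact hcop₁.symm.dvd_of_dvd_mul_left h4
    rw [h3]
    simp only [card_empty, Nat.cast_zero, zero_mul]
    positivity

end c3

end Pool.Agent.T9h84.GG
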